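import Pool.Agent.H12.KSJ.Targets

/-!
# Surjectivity of the restriction map: families with one entry, codimensions
-/

open CategoryTheory TopologicalSpace Opposite AlgebraicGeometry Limits
open Pool.Agent.H62.MK Pool.Agent.H84.KEW
open Pool.Agent.H17.KW (kap Pts entry column dFam)
open Pool.Agent.H12.KG (Sp GenSp kA stA rho)

universe u

namespace Pool.Agent.H19.KSJ

open Pool.Agent.H12.KSJ

section gen

variable {X : TopCat.{u}} {ι : Type u} (p : ι → X) {A : ι → Type u} [∀ i, AddCommGroup (A i)]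

theorem gen_single_pos [DecidableEq ι] {x : X} {i : ι} (h : p i ⤳ x) (a : A i) :
    gen p A x (DFinsupp.single i a) = DFinsupp.single i a := by
  refine DFinsupp.ext fun j => ?_
  by_cases hj : p j ⤳ x
  · rw [gen_apply_pos p _ hj]
  · rw [gen_apply_neg p _ hj, DFinsupp.single_eq_of_ne]
    rintro rfl
    exact hj h

theorem gen_single_neg [DecidableEq ι] {x : X} {i : ι} (h : ¬ p i ⤳ x) (a : A i) :
    gen p A x (DFinsupp.single i a) = 0 := by
  refine DFinsupp.ext fun j => ?_
  rw [DFinsupp.zero_apply]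
  by_cases hj : p j ⤳ x
  · rw [gen_apply_pos p _ hj, DFinsupp.single_eq_of_ne]
    rintro rfl
    exact h hj
  · rw [gen_apply_neg p _ hj]

theorem gen_eq_of_mem_nuGerms [NoetherianSpace X] {N : Shf X} (ν : N ⟶ (E p A).sheaf) (y : X)
    {g : Π₀ i, A i} (hg : g ∈ nuGerms p A ν y) : gen p A y g = g := by
  obtain ⟨U, hU, c, rfl⟩ := hg
  exact gen_gen p (specializes_refl y) _

end gen

section hor

variable {X : Scheme.{u}} {A : Type u} [CommRing A] (f : X ⟶ Spec (CommRingCat.of A)) (π : A)

theorem exH_single (d s : ℕ) [DecidableEq (HPts f π d s)] [DecidableEq (Pts X d s)]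
    (v : HPts f π d s) (a : AH f π d s v) :
    exH f π d s (DFinsupp.single v a) = DFinsupp.single v.1 a := by
  refine DFinsupp.ext fun w => ?_
  by_cases hw : Sp f π w.1
  · rw [exH_apply_of_sp f π d s _ w hw, DFinsupp.single_eq_of_ne]
    rintro rfl
    exact v.2 hw
  · have := exH_apply f π d s (DFinsupp.single v a) ⟨w, hw⟩
    refine this.trans ?_
    by_cases h : w = v.1
    · subst h
      rw [DFinsupp.single_eq_same]
      exact (DFinsupp.single_eq_same (β := fun v : Pts X d s => MilnorK (kap X v.1) s)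
        (i := v.1) (b := a)).symm
    · rw [DFinsupp.single_eq_of_ne h, DFinsupp.single_eq_of_ne]
      rintro rfl
      exact h rfl

theorem dH_single_apply [IsNoetherian X] (d s : ℕ) [DecidableEq (HPts f π d (s + 1))]
    (w : HPts f π d (s + 1)) (a : AH f π d (s + 1) w) (v : HPts f π d s) :
    dH f π d s (DFinsupp.single w a) v = entry w.1.1 v.1.1 s a := by
  classical
  unfold dH
  rw [AddMonoidHom.comp_apply, AddMonoidHom.comp_apply, exH_single, reH_apply]
  exact dFam_single_apply X d s w.1 a v.1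

end hor

section codim

variable {X : Scheme.{u}}

theorem coheight_lt_top' {N : ℕ} (hdim : ∀ x : X, Order.coheight x ≤ (N : ℕ∞)) (x : X) :
    Order.coheight x < ⊤ := lt_of_le_of_lt (hdim x) (ENat.natCast_lt_top N)

/-- The codimension of a point with given `dl`. -/
theorem coheight_of_dl {e s : ℕ} (hdim : ∀ x : X, Order.coheight x ≤ ((e + 2 : ℕ) : ℕ∞))
    (y : X) (h : dl (X := X) (e + 1) y = s) : Order.coheight y + (s : ℕ∞) = ((e + 2 : ℕ) : ℕ∞) := by
  have h1 := coheight_lt_top' hdim y
  obtain ⟨c, hc⟩ := ENat.ne_top_iff_exists.1 h1.ne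
  have h2 := hdim y
  unfold dl at h
  rw [← hc] at h h2 ⊢
  rw [ENat.toNat_natCast] at h
  have h3 : c ≤ e + 2 := by exact_mod_cast h2
  have h4 : c + s = e + 2 := by omega
  exact_mod_cast h4

theorem coheight_of_pts {d s : ℕ} (v : Pts X d s) :
    ∃ c : ℕ, Order.coheight v.1 = (c : ℕ∞) ∧ c + s = d := by
  have h := v.2
  have h1 : Order.coheight v.1 ≠ ⊤ := by
    intro h2
    rw [h2, top_add] at h
    exact ENat.top_ne_natCast _ h
  obtain ⟨c, hc⟩ := ENat.ne_top_iff_exists.1 h1
  refine ⟨c, hc.symm, ?_⟩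
  rw [← hc] at h
  exact_mod_cast h

end codim

end Pool.Agent.H19.KSJ
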