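import Pool.Agent.H84.KSJ.HEX
import Pool.Agent.H19.KSJ.Basic

/-!
# Surjectivity of the restriction map: multiples of `q` are germs of the kernel
-/

open CategoryTheory TopologicalSpace Opposite AlgebraicGeometry Limits
open Pool.Agent.H62.MK Pool.Agent.H84.KEW
open Pool.Agent.H17.KW (kap Pts entry column dFam D dD Gersten topSh KSh redSh thick thickι Fsh AbSh
  isLocalHom_dFam nsmul_app Fsh_nsmul)
open Pool.Agent.H12.KG (Sp GenSp kA stA rho)

universe u

namespace Pool.Agent.H19.KSJ

open Pool.Agent.H12.KSJ Pool.Agent.H84.KSJ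

noncomputable section

/-- Sections killed by a morphism come from the kernel. -/
theorem lift_kernel {X : TopCat.{u}} {F G : Shf X} (φ : F ⟶ G) {U : Opens X}
    (s : F.obj.obj (op U)) (h : φ.hom.app (op U) s = 0) :
    ∃ k : (kernel φ).obj.obj (op U), (kernel.ι φ).hom.app (op U) k = s :=
  TopCat.Sheaf.sections_exact_of_left_exact (X := X)
    (S := ShortComplex.mk (kernel.ι φ) φ (kernel.condition φ))
    (ShortComplex.exact_kernel φ) (inferInstanceAs (Mono (kernel.ι φ))) s h

/-- `q` times a section of `K` comes from the kernel of the restriction. -/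
theorem lift_nsmul {A : Type u} [CommRing A] [IsLocalRing A] {X : Scheme.{u}}
    (f : X ⟶ Spec (CommRingCat.of A)) (q m n : ℕ) {U : Opens X.toTopCat}
    (c : (KSh X m).obj.obj (op U)) :
    ∃ k : (kernel (redSh (thickι f n) q m) : AbSh X).obj.obj (op U),
      (kernel.ι (redSh (thickι f n) q m)).hom.app (op U) k = q • c := by
  refine lift_kernel (X := X.toTopCat) (redSh (thickι f n) q m) (q • c) ?_
  have h1 : (redSh (thickι f n) q m).hom.app (op U) (q • c) =
      q • (redSh (thickι f n) q m).hom.app (op U) c := map_nsmul _ _ _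
  have h2 := nsmul_app (F := Fsh f q m n) q (op U)
    ((redSh (thickι f n) q m).hom.app (op U) c)
  rw [Fsh_nsmul] at h2
  exact h1.trans h2.symm

/-- NQX. -/
theorem pf_NQX : T_NQX.{u} := by
  intro A _ _ _ X _ f π e q n hG y g hg hd
  have hex := locEx_of_exact hG.exact0 y
  -- the section of `C^0`
  obtain ⟨V, hyV, -, hV⟩ := exists_keep_eq (X := X.toTopCat)
    (fun v : Pts X (e + 1) e => (v.1 : X)) (A := fun v => MilnorK (kap X v.1) e)
    (U := ⊤) (x := y) trivial (f := dFam X (e + 1) e (exH f π (e + 1) (e + 1) g)) (g := 0)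
    (by rw [map_zero]; exact hd)
  rw [map_zero] at hV
  let G : Π₀ v : Pts X (e + 1) (e + 1), MilnorK (kap X v.1) (e + 1) := exH f π (e + 1) (e + 1) g
  obtain ⟨W, hWV, hyW, c, hc⟩ := hex V hyV
    (show (E (X := X.toTopCat) (fun v : Pts X (e + 1) (e + 1) => (v.1 : X))
        (fun v => MilnorK (kap X v.1) (e + 1))).sec V from
      ⟨keep (X := X.toTopCat) (fun v : Pts X (e + 1) (e + 1) => (v.1 : X))
        (fun v => MilnorK (kap X v.1) (e + 1)) V G,
        fun i hi => keep_apply_neg (X := X.toTopCat) _ _ hi⟩) (by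
      refine Subtype.ext ?_
      change keep (X := X.toTopCat) (fun v : Pts X (e + 1) e => (v.1 : X))
        (fun v => MilnorK (kap X v.1) e) V (dFam X (e + 1) e
        (keep (X := X.toTopCat) (fun v : Pts X (e + 1) (e + 1) => (v.1 : X))
        (fun v => MilnorK (kap X v.1) (e + 1)) V G)) = 0
      rw [keep_comp_keep (X := X.toTopCat) (isLocalHom_dFam X (e + 1) e)]
      exact hV)
  obtain ⟨k, hk⟩ := lift_nsmul f q (e + 1) n c
  refine ⟨W, hyW, k, ?_⟩
  -- the family of `k`
  have h1 : (show (E (X := X.toTopCat) (fun v : Pts X (e + 1) (e + 1) => (v.1 : X))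
        (fun v => MilnorK (kap X v.1) (e + 1))).sec W from
        (topSh X (e + 1)).hom.app (op W) ((kernel.ι (redSh (thickι f n) q (e + 1))).hom.app
          (op W) k)).1 = q • keep (X := X.toTopCat)
        (fun v : Pts X (e + 1) (e + 1) => (v.1 : X))
        (fun v => MilnorK (kap X v.1) (e + 1)) W (keep (X := X.toTopCat)
        (fun v : Pts X (e + 1) (e + 1) => (v.1 : X))
        (fun v => MilnorK (kap X v.1) (e + 1)) V G) := by
    rw [hk]
    have h2 : (topSh X (e + 1)).hom.app (op W) (q • c) =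
        q • (topSh X (e + 1)).hom.app (op W) c := map_nsmul _ _ _
    rw [h2]
    have h3 := congrArg (fun t => q • Subtype.val t) hc
    exact h3
  refine DFinsupp.ext fun v => ?_
  by_cases hv : v.1.1 ⤳ y
  · rw [gen_apply_pos (X := X.toTopCat) (pH f π (e + 1) (e + 1)) _ hv]
    have h4 : famOf (X := X.toTopCat) (pH f π (e + 1) (e + 1)) (AH f π (e + 1) (e + 1))
        (nuSh f π q e n) k = keep (X := X.toTopCat) (pH f π (e + 1) (e + 1))
          (AH f π (e + 1) (e + 1)) W (reH f π (e + 1) (e + 1)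
          (show (E (X := X.toTopCat) (fun v : Pts X (e + 1) (e + 1) => (v.1 : X))
        (fun v => MilnorK (kap X v.1) (e + 1))).sec W from
        (topSh X (e + 1)).hom.app (op W) ((kernel.ι (redSh (thickι f n) q (e + 1))).hom.app
          (op W) k)).1) := rfl
    have hvW : (v.1.1 : X.toTopCat) ∈ W := hv.mem_open W.2 hyW
    rw [h4, keep_apply_pos (X := X.toTopCat) (pH f π (e + 1) (e + 1)) _ hvW, reH_apply, h1]
    rw [DFinsupp.smul_apply, keep_apply_pos (X := X.toTopCat) _ _ hvW,
      keep_apply_pos (X := X.toTopCat) _ _ (hWV hvW)]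
    rw [DFinsupp.smul_apply]
    congr 1
    exact exH_apply f π (e + 1) (e + 1) g v
  · rw [gen_apply_neg (X := X.toTopCat) (pH f π (e + 1) (e + 1)) _ hv, DFinsupp.smul_apply]
    have h5 := congrArg (fun t => t v) hg
    rw [gen_apply_neg (X := X.toTopCat) (pH f π (e + 1) (e + 1)) _ hv] at h5
    rw [← h5, smul_zero]

end

end Pool.Agent.H19.KSJ
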