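import Pool.Agent.H12.KSJ.Targets

/-!
# Small symbols at a discrete valuation ring
-/

open Pool.Agent.H62.MK

universe u

namespace Pool.Agent.H19.KSJ

open Pool.Agent.H12.KSJ

/-- `K_(n+1)(F)` is generated by symbols of units and symbols `{t, u_1, .., u_n}` for units
`u_i`. -/
theorem mem_gens {F : Type u} [Field F] (t : Fˣ) (U : Subgroup Fˣ)
    (hU : ∀ a : Fˣ, ∃ (m : ℤ), ∃ v ∈ U, a = t ^ m * v) (hm1 : (-1 : Fˣ) ∈ U) :
    ∀ (n : ℕ) (y : MilnorK F (n + 1)),
      y ∈ AddSubgroup.closure ({z | ∃ v : Fin (n + 1) → Fˣ, (∀ i, v i ∈ U) ∧ z = sym v} ∪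
        {z | ∃ v : Fin n → Fˣ, (∀ i, v i ∈ U) ∧ z = cup t (sym v)}) := by
  intro n
  induction n with
  | zero =>
    intro y
    refine MilnorK.cup_induction y (AddSubgroup.zero_mem _) ?_
      (fun x y hx hy => AddSubgroup.add_mem _ hx hy)
    intro a z
    obtain ⟨m, v, hv, rfl⟩ := hU a
    rw [cup_mul, cup_zpow]
    refine MilnorK.induction (p := fun z => m • cup t z + cup v z ∈ _) z ?_ ?_ ?_ ?_
    · simp
    · intro e
      refine AddSubgroup.add_mem _ (AddSubgroup.zsmul_mem _ (AddSubgroup.subset_closure ?_) _)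
        (AddSubgroup.subset_closure ?_)
      · exact Or.inr ⟨e, fun i => i.elim0, rfl⟩
      · refine Or.inl ⟨Fin.cons v e, ?_, (cup_sym v e)⟩
        intro i
        refine Fin.cases ?_ (fun j => j.elim0) i
        simpa using hv
    · intro x hx
      rw [map_neg, map_neg, smul_neg, ← neg_add]
      exact AddSubgroup.neg_mem _ hx
    · intro x y hx hy
      have := AddSubgroup.add_mem _ hx hy
      have e : m • cup t (x + y) + cup v (x + y)
          = (m • cup t x + cup v x) + (m • cup t y + cup v y) := by
        rw [map_add, map_add, smul_add]; abel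
      rw [e]; exact this
  | succ n ih =>
    intro y
    refine MilnorK.cup_induction y (AddSubgroup.zero_mem _) ?_
      (fun x y hx hy => AddSubgroup.add_mem _ hx hy)
    intro a z
    obtain ⟨m, v, hv, rfl⟩ := hU a
    rw [cup_mul, cup_zpow]
    have hz := ih z
    refine AddSubgroup.closure_induction (p := fun z _ => m • cup t z + cup v z ∈ _)
      ?_ ?_ ?_ ?_ hz
    · rintro z (⟨w, hw, rfl⟩ | ⟨w, hw, rfl⟩)
      · refine AddSubgroup.add_mem _ (AddSubgroup.zsmul_mem _ (AddSubgroup.subset_closure ?_) _)
          (AddSubgroup.subset_closure ?_)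
        · exact Or.inr ⟨w, hw, rfl⟩
        · refine Or.inl ⟨Fin.cons v w, ?_, (cup_sym v w)⟩
          intro i
          refine Fin.cases ?_ (fun j => ?_) i
          · simpa using hv
          · simpa using hw j
      · have e1 : cup t (cup t (sym w)) = cup t (sym (Fin.cons (-1) w : Fin (n + 1) → Fˣ)) := by
          rw [cup_cup_self, cup_sym]
        have e2 : cup v (cup t (sym w)) = -cup t (sym (Fin.cons v w : Fin (n + 1) → Fˣ)) := by
          rw [cup_anticomm, cup_sym v]
        rw [e1, e2]
        refine AddSubgroup.add_mem _ (AddSubgroup.zsmul_mem _ (AddSubgroup.subset_closure ?_) _)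
          (AddSubgroup.neg_mem _ (AddSubgroup.subset_closure ?_))
        · refine Or.inr ⟨_, ?_, rfl⟩
          intro i
          refine Fin.cases ?_ (fun j => ?_) i
          · simpa using hm1
          · simpa using hw j
        · refine Or.inr ⟨_, ?_, rfl⟩
          intro i
          refine Fin.cases ?_ (fun j => ?_) i
          · simpa using hv
          · simpa using hw j
    · simp
    · intro x y _ _ hx hy
      have := AddSubgroup.add_mem _ hx hy
      have e : m • cup t (x + y) + cup v (x + y)
          = (m • cup t x + cup v x) + (m • cup t y + cup v y) := by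
        rw [map_add, map_add, smul_add]; abel
      rw [e]; exact this
    · intro x _ hx
      rw [map_neg, map_neg, smul_neg, ← neg_add]
      exact AddSubgroup.neg_mem _ hx

/-- A subgroup which contains two coprime multiples of an element contains the element. -/
theorem mem_of_coprime {K : Type u} [AddCommGroup K] (H : AddSubgroup K) (x : K) (a b : ℕ)
    (hab : Nat.Coprime a b) (ha : a • x ∈ H) (hb : b • x ∈ H) : x ∈ H := by
  have h := Nat.gcd_eq_gcd_ab a b
  rw [hab] at h
  have e : x = Nat.gcdA a b • (a • x) + Nat.gcdB a b • (b • x) := by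
    rw [← natCast_zsmul, ← natCast_zsmul, smul_smul, smul_smul, ← add_smul,
      mul_comm (Nat.gcdA a b), mul_comm (Nat.gcdB a b), ← h]
    simp
  rw [e]
  exact H.add_mem (H.zsmul_mem ha _) (H.zsmul_mem hb _)

section dvr

variable {O F : Type u} [CommRing O] [IsLocalRing O] [Field F] [Algebra O F]

/-- Elements of `O` with nonzero image, up to a unit, are powers of `t`. -/
theorem exists_pow (hD : IsDiscreteValuationRing (algebraMap O F).range) {t : O}
    (ht : Irreducible (⟨algebraMap O F t, t, rfl⟩ : (algebraMap O F).range)) (a : O)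
    (ha : algebraMap O F a ≠ 0) :
    ∃ (n : ℕ) (b : Oˣ), algebraMap O F a = algebraMap O F t ^ n * algebraMap O F b := by
  have h0 : (⟨algebraMap O F a, a, rfl⟩ : (algebraMap O F).range) ≠ 0 := fun h =>
    ha (congrArg Subtype.val h)
  obtain ⟨n, w, hw⟩ := IsDiscreteValuationRing.eq_unit_mul_pow_irreducible h0 ht
  obtain ⟨b, hb⟩ := (w : (algebraMap O F).range).2
  have hbu : IsUnit b := by
    by_contra hb1
    obtain ⟨c, hc⟩ := ((w⁻¹ : ((algebraMap O F).range)ˣ) : (algebraMap O F).range).2
    have h1 : algebraMap O F (b * c) = 1 := by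
      rw [map_mul, hb, hc]
      have : (w : (algebraMap O F).range) * ((w⁻¹ : ((algebraMap O F).range)ˣ) :
        (algebraMap O F).range) = 1 := by simp
      exact congrArg Subtype.val this
    have h2 : b * c ∈ IsLocalRing.maximalIdeal O :=
      Ideal.mul_mem_right _ _ ((IsLocalRing.mem_maximalIdeal b).2 hb1)
    have h3 : IsUnit (1 - b * c) := by
      by_contra h4
      have h5 := Ideal.add_mem _ ((IsLocalRing.mem_maximalIdeal (1 - b * c)).2 h4) h2
      rw [sub_add_cancel] at h5
      exact (IsLocalRing.mem_maximalIdeal (1 : O)).1 h5 isUnit_one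
    have h6 := h3.map (algebraMap O F)
    rw [map_sub, map_one, h1, sub_self] at h6
    exact not_isUnit_zero h6
  refine ⟨n, hbu.unit, ?_⟩
  have h7 := congrArg Subtype.val hw
  change algebraMap O F a = _ at h7
  rw [h7]
  change ((w : (algebraMap O F).range) : F) * (algebraMap O F t) ^ n = _
  rw [mul_comm, IsUnit.unit_spec, hb]

/-- An element of the maximal ideal with nonzero image is a multiple of `t`. -/
theorem exists_mul (hD : IsDiscreteValuationRing (algebraMap O F).range) {t : O}
    (ht : Irreducible (⟨algebraMap O F t, t, rfl⟩ : (algebraMap O F).range)) (a : O)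
    (ha : algebraMap O F a ≠ 0) (hm : a ∈ IsLocalRing.maximalIdeal O) :
    ∃ b : O, algebraMap O F a = algebraMap O F (t * b) := by
  obtain ⟨n, b, hb⟩ := exists_pow hD ht a ha
  cases n with
  | zero =>
    exfalso
    rw [pow_zero, one_mul] at hb
    have h1 : IsUnit ((b : O) - a) := by
      by_contra h4
      have h5 := Ideal.add_mem _ ((IsLocalRing.mem_maximalIdeal _).2 h4) hm
      rw [sub_add_cancel] at h5
      exact (IsLocalRing.mem_maximalIdeal (b : O)).1 h5 b.isUnit
    have h6 := h1.map (algebraMap O F)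
    rw [map_sub, hb, sub_self] at h6
    exact not_isUnit_zero h6
  | succ n =>
    refine ⟨t ^ n * b, ?_⟩
    rw [hb, map_mul, map_mul, map_pow]
    ring

end dvr

/-- Units of a field which come from units of a ring. -/
abbrev UU (O F : Type u) [CommRing O] [Field F] [Algebra O F] : Subgroup Fˣ :=
  (Units.map (algebraMap O F).toMonoidHom).range

theorem pf_SMA (hR : T_R1U.{u}) : T_SMA.{u} := by
  intro O F _ _ _ _ hD hfrac π hπ hπ0 q n e hq hn H h1 h2
  have h1' : ∀ (u : Fˣ) (c : O) (b : Fin e → Fˣ), (∀ i, b i ∈ UU O F) →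
      (u : F) = 1 + algebraMap O F (π ^ n * c) → cup u (sym b) ∈ H := by
    intro u c b hb hu
    choose b' hb' using hb
    have := h1 u c b' hu
    have e1 : (fun i => Units.map (algebraMap O F).toMonoidHom (b' i)) = b := funext hb'
    rwa [e1] at this
  cases e with
  | zero =>
    refine ⟨n, fun u c hu g => h1' u c g (fun i => i.elim0) hu⟩
  | succ e =>
    have := hD
    obtain ⟨t', ht'⟩ := IsDiscreteValuationRing.exists_irreducible (algebraMap O F).range
    obtain ⟨t, ht⟩ := t'.2
    have htirr : Irreducible (⟨algebraMap O F t, t, rfl⟩ : (algebraMap O F).range) := by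
      have : (⟨algebraMap O F t, t, rfl⟩ : (algebraMap O F).range) = t' := Subtype.ext ht
      rw [this]
      exact ht'
    have ht0 : algebraMap O F t ≠ 0 := fun h => htirr.ne_zero (Subtype.ext h)
    have htm : t ∈ IsLocalRing.maximalIdeal O := by
      rw [IsLocalRing.mem_maximalIdeal, mem_nonunits_iff]
      intro hu
      apply htirr.not_isUnit
      have := hu.map (algebraMap O F).rangeRestrict
      exact this
    obtain ⟨N, b, hb⟩ := exists_pow hD htirr (π ^ n) (by
      rw [map_pow]; exact pow_ne_zero _ hπ0)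
    obtain ⟨π', hπ'⟩ := exists_mul hD htirr π hπ0 hπ
    set tF : Fˣ := Units.mk0 _ ht0 with htF
    have hm1 : (-1 : Fˣ) ∈ UU O F := ⟨-1, Units.ext (by simp)⟩
    have hU : ∀ a : Fˣ, ∃ (m : ℤ), ∃ v ∈ UU O F, a = tF ^ m * v := by
      intro a
      obtain ⟨x, y, hy, hxy⟩ := hfrac (a : F)
      have hx : algebraMap O F x ≠ 0 := by
        rw [← hxy]
        exact mul_ne_zero a.ne_zero hy
      obtain ⟨m, c, hc⟩ := exists_pow hD htirr x hx
      obtain ⟨k, d, hd⟩ := exists_pow hD htirr y hy
      refine ⟨(m : ℤ) - k, Units.map (algebraMap O F).toMonoidHom (c * d⁻¹), ⟨_, rfl⟩, ?_⟩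
      have hxy' : a * (tF ^ k * Units.map (algebraMap O F).toMonoidHom d) =
          tF ^ m * Units.map (algebraMap O F).toMonoidHom c := by
        apply Units.ext
        rw [hc, hd] at hxy
        exact hxy
      rw [map_mul, map_inv, zpow_sub, zpow_natCast, zpow_natCast]
      have key : ∀ a x y z w : Fˣ, a * (x * y) = z * w → a = z * x⁻¹ * (w * y⁻¹) := by
        intro a x y z w h
        rw [mul_mul_mul_comm, ← h, ← mul_inv, mul_inv_cancel_right]
      exact key _ _ _ _ _ hxy'
    set j := N * q + 1 with hj
    have hcop : Nat.Coprime q j := by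
      rw [hj, mul_comm N q, Nat.coprime_mul_left_add_right q 1 N]
      exact Nat.coprime_one_right q
    have hNj : N ≤ j := by
      rw [hj]
      have : N * 1 ≤ N * q := Nat.mul_le_mul_left N hq
      omega
    have htj : t ^ j ∈ IsLocalRing.maximalIdeal O := Ideal.pow_mem_of_mem _ htm j (by omega)
    -- multiples of `t ^ j` are multiples of `π ^ n`
    have hpow : ∀ c : O, algebraMap O F (t ^ j * c) =
        algebraMap O F (π ^ n * ((b⁻¹ : Oˣ) * (t ^ (j - N) * c))) := by
      intro c
      have e1 : algebraMap O F (b : O) * algebraMap O F ((b⁻¹ : Oˣ) : O) = 1 := by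
        rw [← map_mul]; simp
      have e2 : t ^ j = t ^ N * t ^ (j - N) := by rw [← pow_add]; congr 1; omega
      rw [map_mul _ (π ^ n), hb, e2, map_mul _ ((b⁻¹ : Oˣ) : O), map_mul _ (t ^ N * t ^ (j - N)),
        map_mul, map_mul, map_pow, map_pow]
      calc _ = algebraMap O F t ^ N * (algebraMap O F b * algebraMap O F ((b⁻¹ : Oˣ) : O)) *
            (algebraMap O F t ^ (j - N) * algebraMap O F c) := by rw [e1]; ring
        _ = _ := by ring
    have hC : ∀ (w : Fˣ) (c : Oˣ), (w : F) = 1 + algebraMap O F (t ^ j * c) →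
        ∀ v : Fin e → Fˣ, (∀ i, v i ∈ UU O F) → cup w (cup tF (sym v)) ∈ H := by
      intro w c hw v hv
      refine mem_of_coprime H _ q j hcop (h2 _ ?_) ?_
      · rw [cup_sym, cup_sym]
        exact hR O F (e + 1) _ 0 (t ^ j * c) (Ideal.mul_mem_right _ _ htj) hw
      · set cF : Fˣ := Units.map (algebraMap O F).toMonoidHom c with hcF
        have hst : cup w (cup (tF ^ j * (-cF)) (sym v)) = 0 := by
          apply cup_cup_eq_zero
          rw [hw]
          have : ((tF ^ j * (-cF) : Fˣ) : F) = -(algebraMap O F t ^ j * algebraMap O F c) := by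
            rw [Units.val_mul, Units.val_neg, Units.val_pow_eq_pow_val]
            change algebraMap O F t ^ j * (-algebraMap O F c) = _
            ring
          rw [this, map_mul, map_pow]
          ring
        rw [cup_mul, map_add] at hst
        have e1 : cup (tF ^ j) (sym v) = j • cup tF (sym v) := by
          have := cup_zpow tF (j : ℤ) (sym v)
          rwa [zpow_natCast, natCast_zsmul] at this
        rw [e1, map_nsmul] at hst
        rw [eq_neg_of_add_eq_zero_left hst]
        refine H.neg_mem ?_
        rw [cup_sym (-cF)]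
        refine h1' w _ _ ?_ (by rw [hw, hpow])
        intro i
        refine Fin.cases ?_ (fun k => ?_) i
        · rw [Fin.cons_zero]
          exact ⟨-c, Units.ext (by simp [hcF])⟩
        · rw [Fin.cons_succ]
          exact hv k
    refine ⟨j + 1 + n, ?_⟩
    intro u c hu
    -- second kind of generators
    have hE : ∀ v : Fin e → Fˣ, (∀ i, v i ∈ UU O F) → cup u (cup tF (sym v)) ∈ H := by
      intro v hv
      have e1 : algebraMap O F (π ^ (j + 1 + n) * c) =
          algebraMap O F (t ^ j * (t * (π' ^ (j + 1) * (π ^ n * c)))) := by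
        rw [pow_add π, mul_assoc, map_mul, map_pow, hπ', ← map_pow, ← map_mul]
        congr 1
        ring
      set c' := π' ^ (j + 1) * (π ^ n * c) with hc'
      have hu1 : IsUnit (1 + t ^ j) := by
        by_contra h
        have := Ideal.sub_mem _ ((IsLocalRing.mem_maximalIdeal _).2 h) htj
        rw [add_sub_cancel_right] at this
        exact (IsLocalRing.mem_maximalIdeal (1 : O)).1 this isUnit_one
      have hu2 : IsUnit (t * c' - 1) := by
        by_contra h
        have := Ideal.sub_mem _ (Ideal.mul_mem_right c' _ htm)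
          ((IsLocalRing.mem_maximalIdeal _).2 h)
        rw [sub_sub_cancel] at this
        exact (IsLocalRing.mem_maximalIdeal (1 : O)).1 this isUnit_one
      obtain ⟨w1, hw1⟩ := hu1
      obtain ⟨w2, hw2⟩ := hu2
      set W1 : Fˣ := Units.map (algebraMap O F).toMonoidHom w1 with hW1
      have eW1 : (W1 : F) = 1 + algebraMap O F (t ^ j * (1 : Oˣ)) := by
        change algebraMap O F (w1 : O) = _
        rw [hw1, map_add, map_one, Units.val_one, mul_one]
      have eu : u = W1 * (W1⁻¹ * u) := by group
      rw [eu, cup_mul]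
      refine H.add_mem (hC W1 1 eW1 v hv) (hC (W1⁻¹ * u) (w1⁻¹ * w2) ?_ v hv)
      have e3 : (W1 : F) * ((W1⁻¹ * u : Fˣ) : F) = (u : F) := by
        rw [← Units.val_mul, ← eu]
      have e4 : (W1 : F) ≠ 0 := W1.ne_zero
      apply mul_left_cancel₀ e4
      rw [e3, hu, e1, eW1, Units.val_mul, hw2]
      have e5 : algebraMap O F (w1 : O) * algebraMap O F ((w1⁻¹ : Oˣ) : O) = 1 := by
        rw [← map_mul]; simp
      rw [hw1] at e5
      simp only [map_mul, map_add, map_sub, map_one, map_pow, Units.val_one, mul_one] at e5 ⊢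
      linear_combination (-(algebraMap O F t ^ j) * (algebraMap O F t * algebraMap O F c' - 1)) * e5
    intro g
    refine AddSubgroup.closure_induction (p := fun z _ => cup u z ∈ H) ?_ ?_ ?_ ?_
      (mem_gens tF (UU O F) hU hm1 e (sym g))
    · rintro z (⟨w, hw, rfl⟩ | ⟨w, hw, rfl⟩)
      · refine h1' u (π ^ (j + 1) * c) w hw ?_
        rw [hu]
        congr 2
        ring
      · exact hE w hw
    · rw [map_zero]; exact H.zero_mem
    · intro x y _ _ hx hy
      rw [map_add]; exact H.add_mem hx hy
    · intro x _ hx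
      rw [map_neg]; exact H.neg_mem hx

end Pool.Agent.H19.KSJ
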