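import Pool.Agent.H19.KSJ.SMS2

/-!
# Surjectivity of the restriction map: small symbols, the step down
-/

open CategoryTheory TopologicalSpace Opposite AlgebraicGeometry Limits
open Pool.Agent.H62.MK Pool.Agent.H84.KEW
open Pool.Agent.H17.KW (kap Pts entry column dFam)
open Pool.Agent.H12.KG (Sp GenSp kA stA rho)
open Pool.Agent.H15.KEW (rho_stA rho_comp rho_apply stalkSpecializes_stA genSp_finite)

universe u

namespace Pool.Agent.H19.KSJ

open Pool.Agent.H12.KSJ

theorem gen_dH_eq {X : Scheme.{u}} [IsNoetherian X] {A : Type u} [CommRing A]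
    (f : X ⟶ Spec (CommRingCat.of A)) (π : A) (d s : ℕ) [DecidableEq (HPts f π d (s + 1))]
    [DecidableEq (HPts f π d s)] (w : HPts f π d (s + 1)) (ξ : AH f π d (s + 1) w)
    (v : HPts f π d s) {y : X} (h : v.1.1 ⤳ y) (b : AH f π d s v)
    (hb : entry w.1.1 v.1.1 s ξ = b)
    (h0 : ∀ v' : HPts f π d s, v'.1.1 ⤳ y → v' ≠ v → entry w.1.1 v'.1.1 s ξ = 0) :
    gen (X := X.toTopCat) (pH f π d s) (AH f π d s) y
      (dH f π d s (DFinsupp.single w ξ)) = DFinsupp.single v b := by
  refine DFinsupp.ext fun v' => ?_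
  by_cases hv'y : v'.1.1 ⤳ y
  · rw [gen_apply_pos (X := X.toTopCat) (pH f π d s) _ hv'y, dH_single_apply]
    by_cases hv' : v' = v
    · subst hv'
      rw [DFinsupp.single_eq_same]
      exact hb
    · rw [DFinsupp.single_eq_of_ne hv']
      exact h0 v' hv'y hv'
  · rw [gen_apply_neg (X := X.toTopCat) (pH f π d s) _ hv'y, DFinsupp.single_eq_of_ne]
    rintro rfl
    exact hv'y h

theorem pf_SMS (hR : T_RDV.{u}) (h1 : T_R1U.{u}) (hF : T_FRAC.{u}) (hP : T_PIG.{u})
    (hB : T_BADG.{u}) : T_SMS.{u} := by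
  intro A _ X _ f π e m hm hdim hdvr R hrec hsm v y h hy hdl g
  classical
  have hdim' : ∀ x : X, Order.coheight x ≤ ((e + 2 : ℕ) : ℕ∞) := fun x => by
    exact_mod_cast hdim x
  obtain ⟨w, hwv, hD⟩ := hdvr v
  have hwy : w.1.1 ⤳ y := hwv.trans h
  -- a uniformizer
  have hD' := hD
  obtain ⟨t', ht'⟩ := IsDiscreteValuationRing.exists_irreducible (rho hwv).range
  have ht0 : (t' : X.residueField w.1.1) ≠ 0 := fun h0 => ht'.ne_zero (Subtype.ext h0)
  let t : (kap X w.1.1)ˣ := Units.mk0 (t' : X.residueField w.1.1) ht0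
  -- lifts of the entries
  choose G hG using fun i => lift_unit (O := X.presheaf.stalk v.1.1) (g i)
  let gt : Fin m → (kap X w.1.1)ˣ := fun i => ru hwv (G i)
  -- the element vanishing at bad points
  obtain ⟨Γ, hΓv, hΓ⟩ := hB X (e + 1) (m + 1) w.1 v.1 y h (m + 1)
    (Fin.cons t gt : Fin (m + 1) → (kap X w.1.1)ˣ)
  -- a power of `π`
  have hcv : Order.coheight y ≤ Order.coheight v.1.1 + 1 := by
    have e1 := coheight_of_dl hdim' y hdl
    obtain ⟨c, hc1, hc2⟩ := coheight_of_pts v.1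
    obtain ⟨c', hc'⟩ := ENat.ne_top_iff_exists.1 (coheight_lt_top' hdim' y).ne
    rw [← hc'] at e1 ⊢
    rw [hc1]
    have h3 : c' + (m + 1) = e + 2 := by exact_mod_cast e1
    have h4 : c' ≤ c + 1 := by omega
    exact_mod_cast h4
  obtain ⟨M1, c1, hM1⟩ := hP A X f π v.1.1 y h v.2 hy (coheight_lt_top' hdim' y) hcv Γ hΓv
  -- the uniform bound
  obtain ⟨M', hM', hbd⟩ := bound f π e m hdim R hsm w (Fin.cons t gt)
  have hym : stA f y π ∈ IsLocalRing.maximalIdeal (X.presheaf.stalk y) :=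
    (IsLocalRing.mem_maximalIdeal _).2 hy
  have hunit : ∀ c : X.presheaf.stalk y, IsUnit (1 + stA f y π ^ M' * (Γ * (c1 * c))) := fun c =>
    isUnit_one_add (Ideal.mul_mem_right _ _ (Ideal.pow_mem_of_mem _ hym M' hM'))
  have hval : ∀ c : X.presheaf.stalk y,
      rho h (1 + stA f y π ^ M' * (Γ * (c1 * c))) = 1 + kA f v.1.1 π ^ (M' + M1) * rho h c := by
    intro c
    rw [pow_add, hM1]
    simp only [map_add, map_one, map_mul, map_pow, rho_stA]
    ring
  refine ⟨M' + M1, fun u g' hu hg' => ?_⟩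
  obtain ⟨c, hc⟩ := hu
  choose d hd using hg'
  obtain ⟨U, hU⟩ := hunit c
  choose V hV using fun i => hunit (d i)
  have eu : ru h U = u := by
    apply Units.ext
    refine Eq.trans ?_ hc.symm
    rw [← hval c, ← hU]
    rfl
  have eg : ∀ i, Units.map (IsLocalRing.residue (X.presheaf.stalk v.1.1)).toMonoidHom (G i) *
      ru h (V i) = g' i := by
    intro i
    rw [hG i]
    apply Units.ext
    refine Eq.trans ?_ (hd i).symm
    rw [← hval (d i), ← hV i]
    rfl
  set ξ : MilnorK (kap X w.1.1) (m + 1 + 1) := cup t (sym (Fin.cons (ru hwy U)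
    (fun i => gt i * ru hwy (V i)) : Fin (m + 1) → (kap X w.1.1)ˣ)) with hξ
  have hneg : ξ = -cup (ru hwy U) (sym (Fin.cons t (fun i => gt i * ru hwy (V i)) :
      Fin (m + 1) → (kap X w.1.1)ˣ)) := by
    rw [hξ, ← cup_sym, ← cup_sym, cup_anticomm]
  have hcond : DFinsupp.single (β := fun v : HPts f π (e + 1) (m + 1 + 1) =>
      AH f π (e + 1) (m + 1 + 1) v) w ξ ∈ Cond (X := X.toTopCat) (pH f π (e + 1)) (AH f π (e + 1))
        (Ysp f π) (dl (X := X) (e + 1)) R (m + 1 + 1) y := by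
    intro y' hy'y hy'Y hdl'
    by_cases hwy' : w.1.1 ⤳ y'
    · rw [gen_single_pos (X := X.toTopCat) (pH f π (e + 1) (m + 1 + 1))
        (A := AH f π (e + 1) (m + 1 + 1)) hwy' ξ, hneg,
        DFinsupp.single_neg]
      refine neg_mem ?_
      refine hbd y' hwy' hy'Y hdl' (ru hwy U) _ ?_ ?_
      · refine ⟨X.presheaf.stalkSpecializes hy'y (Γ * (c1 * c)), ?_⟩
        rw [rho_comp]
        change rho hwy (U : X.presheaf.stalk y) = _
        rw [hU, map_add, map_mul, map_pow, rho_stA, map_one]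
      · intro i
        refine Fin.cases ?_ (fun j => ?_) i
        · refine ⟨0, ?_⟩
          rw [map_zero, mul_zero, add_zero, mul_one]
          rfl
        · refine ⟨X.presheaf.stalkSpecializes hy'y (Γ * (c1 * d j)), ?_⟩
          rw [rho_comp]
          refine congrArg (fun z : kap X w.1.1 => (gt j : kap X w.1.1) * z) ?_
          change rho hwy (V j : X.presheaf.stalk y) = _
          rw [hV, map_add, map_mul, map_pow, rho_stA, map_one]
    · rw [gen_single_neg (X := X.toTopCat) (pH f π (e + 1) (m + 1 + 1))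
        (A := AH f π (e + 1) (m + 1 + 1)) hwy' ξ]
      exact zero_mem _
  have hfin : gen (X := X.toTopCat) (pH f π (e + 1) (m + 1)) (AH f π (e + 1) (m + 1)) y
      (dH f π (e + 1) (m + 1) (DFinsupp.single (β := fun v : HPts f π (e + 1) (m + 1 + 1) =>
      AH f π (e + 1) (m + 1 + 1) v) w ξ)) =
      DFinsupp.single (β := fun v : HPts f π (e + 1) (m + 1) => AH f π (e + 1) (m + 1) v) v
        (cup u (sym g')) := by
    refine gen_dH_eq f π (e + 1) (m + 1) w ξ v h _ ?_ ?_
    · have e1 := entry_at hR hF hwv h hD t t' rfl ht' m U G V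
      rw [eu, funext eg] at e1
      exact e1
    · intro v' hv'y hv'
      refine entry_off h1 hwy hv'y t m gt U V Γ (stA f y π ^ M' * (c1 * c)) ?_ ?_
      · rw [hU]
        ring
      · intro hb
        exact hΓ v'.1 hv'y (fun h0 => hv' (Subtype.ext h0)) hb
  have hfinal : DFinsupp.single (β := fun v : HPts f π (e + 1) (m + 1) =>
      AH f π (e + 1) (m + 1) v) v (cup u (sym g')) ∈ R (m + 1) y := by
    rw [hrec y hy hdl]
    exact ⟨_, hcond, hfin⟩
  exact single_mem_inst _ hfinal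

end Pool.Agent.H19.KSJ
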