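import Pool.Agent.H12.KSJ.Sch
import Pool.Agent.H19.KEW.Dvr2

/-!
# Surjectivity of the restriction map: the discrete valuation rings on a smooth scheme
-/

open CategoryTheory AlgebraicGeometry
open Pool.Agent.H12.KG (Sp GenSp kA stA rho)
open Pool.Agent.H17.KW (Pts)
open Pool.Agent.H15.KEW (prm prm_inj Sp.mono)
open Pool.Agent.H19.KEW (dvr_chain stalk_domain coheight_prm)

universe u

namespace Pool.Agent.H19.KSJ

open Pool.Agent.H12.KSJ

variable {A : Type u} [CommRing A] [IsDomain A] [IsDiscreteValuationRing A] {X : Scheme.{u}}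
  (f : X ⟶ Spec (CommRingCat.of A)) [Smooth f]

include f in
/-- The points of codimension one. -/
theorem top_dvr : ∀ y : X, Order.coheight y = 1 → ∀ (w : X) (h : w ⤳ y), w ≠ y →
    IsDiscreteValuationRing (rho h).range ∧ ∀ w' : X, w' ⤳ y → w' ≠ y → w' = w := by
  intro y hy
  have hdom := stalk_domain f y
  have hbot : ∀ (w : X) (h : w ⤳ y), w ≠ y → prm h = ⊥ := by
    intro w h hne
    apply PrimeSpectrum.ext
    have h1 : Order.coheight w < Order.coheight y :=
      Pool.Agent.H17.KE.coheight_lt_of_specializes h hne (by rw [hy]; exact ENat.one_lt_top)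
    rw [hy, coheight_prm h] at h1
    have h2 : (prm h).asIdeal.height = 0 := Order.lt_one_iff.1 h1
    exact Ideal.height_eq_zero_iff_eq_bot.1 h2
  have huniq : ∀ (w : X) (_ : w ⤳ y), w ≠ y → ∀ w' : X, w' ⤳ y → w' ≠ y → w' = w := by
    intro w h hne w' h' hne'
    exact prm_inj h' h ((hbot w' h' hne').trans (hbot w h hne).symm)
  intro w h hne
  refine ⟨?_, huniq w h hne⟩
  obtain ⟨w0, h0, hc, hD⟩ := dvr_chain f y 0 (by rw [hy]; rfl)
  have hw0 : w0 ≠ y := by
    rintro rfl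
    rw [hc] at hy
    exact absurd hy (by simp)
  obtain rfl := huniq w h hne w0 h0 hw0
  exact hD

/-- The chain of discrete valuation rings. -/
theorem sub_dvr (π : A) (e m : ℕ) (hm : m < e) (v : HPts f π (e + 1) (m + 1)) :
    ∃ (w : HPts f π (e + 1) (m + 2)) (h : w.1.1 ⤳ v.1.1),
      IsDiscreteValuationRing (rho h).range := by
  have h1 := v.1.2
  have h2 : Order.coheight v.1.1 ≠ ⊤ := by
    intro h2
    rw [h2, top_add] at h1
    exact ENat.top_ne_natCast _ h1
  obtain ⟨c, hc⟩ := ENat.ne_top_iff_exists.1 h2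
  rw [← hc] at h1
  have h3 : c + (m + 1) = e + 1 := by exact_mod_cast h1
  obtain ⟨j, rfl⟩ : ∃ j, c = j + 1 := ⟨c - 1, by omega⟩
  obtain ⟨w, h, hw, hD⟩ := dvr_chain f v.1.1 j hc.symm
  have h4 : Order.coheight w + ((m + 2 : ℕ) : ℕ∞) = ((e + 1 : ℕ) : ℕ∞) := by
    rw [hw]
    have : j + (m + 2) = e + 1 := by omega
    exact_mod_cast this
  exact ⟨⟨⟨w, h4⟩, fun h5 => v.2 (Sp.mono h h5)⟩, h, hD⟩

end Pool.Agent.H19.KSJ
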