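import Pool.Agent.H19.KSJ.Basic

/-!
# Surjectivity of the restriction map: small symbols, preparations for the step down
-/

open CategoryTheory TopologicalSpace Opposite AlgebraicGeometry Limits
open Pool.Agent.H62.MK Pool.Agent.H84.KEW
open Pool.Agent.H17.KW (kap Pts entry column dFam)
open Pool.Agent.H12.KG (Sp GenSp kA stA rho)
open Pool.Agent.H15.KEW (rho_stA rho_comp rho_apply stalkSpecializes_stA genSp_finite)

universe u

namespace Pool.Agent.H19.KSJ

open Pool.Agent.H12.KSJ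

theorem lift_unit {O : Type u} [CommRing O] [IsLocalRing O] (x : (IsLocalRing.ResidueField O)ˣ) :
    ∃ G : Oˣ, Units.map (IsLocalRing.residue O).toMonoidHom G = x := by
  obtain ⟨b, hb⟩ := IsLocalRing.residue_surjective (R := O) (x : IsLocalRing.ResidueField O)
  have hbu : IsUnit b := by
    by_contra hna
    have h3 : IsLocalRing.residue O b = 0 :=
      (IsLocalRing.residue_eq_zero_iff b).mpr ((IsLocalRing.mem_maximalIdeal b).mpr hna)
    exact x.ne_zero (hb.symm.trans h3)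
  exact ⟨hbu.unit, Units.ext hb⟩

theorem isUnit_one_add {O : Type u} [CommRing O] [IsLocalRing O] {t : O}
    (ht : t ∈ IsLocalRing.maximalIdeal O) : IsUnit (1 + t) := by
  by_contra h
  have := Ideal.sub_mem _ ((IsLocalRing.mem_maximalIdeal _).2 h) ht
  rw [add_sub_cancel_right] at this
  exact (IsLocalRing.mem_maximalIdeal (1 : O)).1 this isUnit_one

/-- `DFinsupp.single` does not depend on the decidability of equality. -/
theorem single_mem_inst {ι : Type u} {β : ι → Type u} [∀ i, AddCommGroup (β i)]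
    {D : DecidableEq ι} {D' : DecidableEq ι} {i : ι} {b : β i} (H : AddSubgroup (Π₀ i, β i))
    (h : @DFinsupp.single ι β _ D i b ∈ H) : @DFinsupp.single ι β _ D' i b ∈ H := by
  have e : D' = D := Subsingleton.elim _ _
  subst e
  exact h

variable {X : Scheme.{u}} {A : Type u} [CommRing A] (f : X ⟶ Spec (CommRingCat.of A)) (π : A)

/-- A special point one step below a horizontal point is a generic point of the special fibre of
its closure. -/
theorem genSp_of_coheight {w y : X} (hw : ¬ Sp f π w) (hwy : w ⤳ y) (hy : Sp f π y)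
    (hfin : Order.coheight y < ⊤) (hle : Order.coheight y ≤ Order.coheight w + 1) :
    GenSp f π w y := by
  refine ⟨hwy, hy, fun y' h1 h2 h3 => ?_⟩
  by_contra hne
  have hwy' : w ≠ y' := fun h0 => hw (h0 ▸ h3)
  have e1 := Pool.Agent.H17.KE.coheight_lt_of_specializes h2 hne hfin
  have e2 := Pool.Agent.H17.KE.coheight_lt_of_specializes h1 hwy' (lt_trans e1 hfin)
  have e3 : Order.coheight w + 1 ≤ Order.coheight y' := Order.add_one_le_of_lt e2
  exact absurd (lt_of_le_of_lt (hle.trans e3) e1) (lt_irrefl _)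

/-- A uniform bound for the small symbols at the points over a point `w`. -/
theorem bound [IsNoetherian X] (e m : ℕ) (hdim : ∀ x : X, Order.coheight x ≤ (e + 2 : ℕ∞))
    (R : ∀ s, X.toTopCat → AddSubgroup (Π₀ v : HPts f π (e + 1) s, AH f π (e + 1) s v))
    (hsm : SMs f π (e + 1) R (m + 1)) [DecidableEq (HPts f π (e + 1) (m + 1 + 1))]
    (w : HPts f π (e + 1) (m + 1 + 1)) (a : Fin (m + 1) → (X.residueField w.1.1)ˣ) :
    ∃ M : ℕ, 1 ≤ M ∧ ∀ (y' : X) (h' : w.1.1 ⤳ y'), Sp f π y' → dl (X := X) (e + 1) y' = m + 1 + 1 →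
      ∀ (u : (X.residueField w.1.1)ˣ) (g' : Fin (m + 1) → (X.residueField w.1.1)ˣ),
      (∃ c : X.presheaf.stalk y', (u : X.residueField w.1.1) = 1 + kA f w.1.1 π ^ M * rho h' c) →
      (∀ i, ∃ c : X.presheaf.stalk y',
        (g' i : X.residueField w.1.1) = a i * (1 + kA f w.1.1 π ^ M * rho h' c)) →
      DFinsupp.single (β := fun v : HPts f π (e + 1) (m + 1 + 1) => AH f π (e + 1) (m + 1 + 1) v) w
        (cup u (sym g')) ∈ R (m + 1 + 1) y' := by
  have key : ∀ y' : X, ∃ M : ℕ, ∀ (h' : w.1.1 ⤳ y'), Sp f π y' →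
      dl (X := X) (e + 1) y' = m + 1 + 1 →
      ∀ (u : (X.residueField w.1.1)ˣ) (g' : Fin (m + 1) → (X.residueField w.1.1)ˣ),
      (∃ c : X.presheaf.stalk y', (u : X.residueField w.1.1) = 1 + kA f w.1.1 π ^ M * rho h' c) →
      (∀ i, ∃ c : X.presheaf.stalk y',
        (g' i : X.residueField w.1.1) = a i * (1 + kA f w.1.1 π ^ M * rho h' c)) →
      DFinsupp.single (β := fun v : HPts f π (e + 1) (m + 1 + 1) => AH f π (e + 1) (m + 1 + 1) v) w
        (cup u (sym g')) ∈ R (m + 1 + 1) y' := by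
    intro y'
    by_cases h : w.1.1 ⤳ y' ∧ Sp f π y' ∧ dl (X := X) (e + 1) y' = m + 1 + 1
    · obtain ⟨M, hM⟩ := hsm w y' h.1 h.2.1 h.2.2 a
      refine ⟨M, fun h' _ _ u g' hu hg' => ?_⟩
      have h3 := hM u g' hu hg'
      exact single_mem_inst _ h3
    · exact ⟨0, fun h' h2 h3 => absurd ⟨h', h2, h3⟩ h⟩
  choose N hN using key
  obtain ⟨B, hB⟩ := ((genSp_finite f π w.1.1).image N).bddAbove
  refine ⟨B + 1, by omega, ?_⟩
  intro y' h' hy' hdl u g' hu hg'
  have hgen : GenSp f π w.1.1 y' := by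
    have hdim' : ∀ x : X, Order.coheight x ≤ ((e + 2 : ℕ) : ℕ∞) := fun x => by
      exact_mod_cast hdim x
    refine genSp_of_coheight f π w.2 h' hy' (coheight_lt_top' hdim' y') ?_
    have h1 := coheight_of_dl hdim' y' hdl
    obtain ⟨c, hc1, hc2⟩ := coheight_of_pts w.1
    have h2 := coheight_lt_top' hdim' y'
    obtain ⟨c', hc'⟩ := ENat.ne_top_iff_exists.1 h2.ne
    rw [← hc'] at h1 ⊢
    rw [hc1]
    have h3 : c' + (m + 1 + 1) = e + 2 := by exact_mod_cast h1
    have h4 : c' ≤ c + 1 := by omega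
    exact_mod_cast h4
  have hle : N y' ≤ B + 1 := (hB ⟨y', hgen, rfl⟩).trans (Nat.le_succ B)
  have hpw : ∀ c : X.presheaf.stalk y', kA f w.1.1 π ^ (B + 1) * rho h' c =
      kA f w.1.1 π ^ N y' * rho h' (stA f y' π ^ (B + 1 - N y') * c) := by
    intro c
    rw [map_mul, map_pow, rho_stA, ← mul_assoc, ← pow_add]
    congr 2
    omega
  refine hN y' h' hy' hdl u g' ?_ fun i => ?_
  · obtain ⟨c, hc⟩ := hu
    exact ⟨_, by rw [hc, hpw]⟩
  · obtain ⟨c, hc⟩ := hg' i
    exact ⟨_, by rw [hc, hpw]⟩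

/-- Units of the local ring of a specialisation are not bad. -/
theorem not_bad_of_unit {w v' y : X} (hwy : w ⤳ y) (hv' : v' ⤳ y) (U : (X.presheaf.stalk y)ˣ) :
    v' ∉ bad w (Units.map (rho hwy).toMonoidHom U : (kap X w)ˣ) := by
  rintro ⟨h, hne⟩
  apply hne
  refine ⟨Units.map (X.presheaf.stalkSpecializes hv').hom.toMonoidHom U, ?_⟩
  exact rho_comp h hv' (U : X.presheaf.stalk y)

theorem not_bad_mul {w v' : X} {a b : (kap X w)ˣ} (ha : v' ∉ bad w a) (hb : v' ∉ bad w b) :
    v' ∉ bad w (a * b) := by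
  rintro ⟨h, hne⟩
  apply hne
  have h1 : ∃ u : (X.presheaf.stalk v')ˣ, Pool.Agent.H17.KW.rho h u = a := by
    by_contra h0
    exact ha ⟨h, h0⟩
  have h2 : ∃ u : (X.presheaf.stalk v')ˣ, Pool.Agent.H17.KW.rho h u = b := by
    by_contra h0
    exact hb ⟨h, h0⟩
  obtain ⟨u1, e1⟩ := h1
  obtain ⟨u2, e2⟩ := h2
  exact ⟨u1 * u2, by rw [Units.val_mul, map_mul, e1, e2, Units.val_mul]⟩

end Pool.Agent.H19.KSJ
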