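import Pool.Agent.H19.KSJ.SMS1

/-!
# Surjectivity of the restriction map: small symbols, the step down
-/

open CategoryTheory TopologicalSpace Opposite AlgebraicGeometry Limits
open Pool.Agent.H62.MK Pool.Agent.H84.KEW
open Pool.Agent.H17.KW (kap Pts entry column dFam)
open Pool.Agent.H12.KG (Sp GenSp kA stA rho)
open Pool.Agent.H15.KEW (rho_stA rho_comp rho_apply stalkSpecializes_stA genSp_finite)

universe u

namespace Pool.Agent.H19.KSJ

open Pool.Agent.H12.KSJ

/-- The map on units. -/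
noncomputable abbrev ru {X : Scheme.{u}} {w y : X} (h : w ⤳ y) :
    (X.presheaf.stalk y)ˣ →* (kap X w)ˣ :=
  Units.map (Pool.Agent.H17.KW.rho h).toMonoidHom

/-- The residue at `v` of the symbol `{t, U, g_1 U_1, ..}`. -/
theorem entry_at (hR : T_RDV.{u}) (hF : T_FRAC.{u}) {X : Scheme.{u}} {w v y : X} (hwv : w ⤳ v)
    (h : v ⤳ y) (hD : IsDiscreteValuationRing (rho hwv).range) (t : (kap X w)ˣ)
    (t' : (rho hwv).range) (ht : (t' : X.residueField w) = (t : kap X w)) (hirr : Irreducible t') (m : ℕ)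
    (U : (X.presheaf.stalk y)ˣ) (G : Fin m → (X.presheaf.stalk v)ˣ)
    (V : Fin m → (X.presheaf.stalk y)ˣ) :
    entry w v (m + 1) (cup t (sym (Fin.cons (ru (hwv.trans h) U)
      (fun i => ru hwv (G i) *
        ru (hwv.trans h) (V i)) : Fin (m + 1) → (kap X w)ˣ))) =
    cup (ru h U : (kap X v)ˣ) (sym fun i =>
      (Units.map (IsLocalRing.residue (X.presheaf.stalk v)).toMonoidHom (G i) *
        ru h (V i) : (kap X v)ˣ)) := by
  rw [show entry w v (m + 1) = Pool.Agent.H62.KG.resX hwv (m + 1) from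
    Pool.Agent.H62.KG.entry_eq hwv (m + 1)]
  let _ : Algebra (X.presheaf.stalk v) (kap X w) := (Pool.Agent.H17.KW.rho hwv).toAlgebra
  have h1 := hR (X.presheaf.stalk v) (kap X w) hD (hF X w v hwv) t t' ht hirr (m + 1)
    (Fin.cons (Units.map (X.presheaf.stalkSpecializes h).hom.toMonoidHom U)
      (fun i => G i * Units.map (X.presheaf.stalkSpecializes h).hom.toMonoidHom (V i)) :
      Fin (m + 1) → (X.presheaf.stalk v)ˣ)
  have e1 : (Fin.cons (ru (hwv.trans h) U)
      (fun i => ru hwv (G i) *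
        ru (hwv.trans h) (V i)) : Fin (m + 1) → (kap X w)ˣ) =
      fun i => Units.map (algebraMap (X.presheaf.stalk v) (kap X w)).toMonoidHom
        ((Fin.cons (Units.map (X.presheaf.stalkSpecializes h).hom.toMonoidHom U)
      (fun i => G i * Units.map (X.presheaf.stalkSpecializes h).hom.toMonoidHom (V i)) :
      Fin (m + 1) → (X.presheaf.stalk v)ˣ) i) := by
    funext i
    refine Fin.cases ?_ (fun j => ?_) i
    · rw [Fin.cons_zero, Fin.cons_zero]
      apply Units.ext
      exact (rho_comp hwv h (U : X.presheaf.stalk y)).symm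
    · rw [Fin.cons_succ, Fin.cons_succ, map_mul]
      congr 1
      apply Units.ext
      exact (rho_comp hwv h (V j : X.presheaf.stalk y)).symm
  rw [e1]
  refine Eq.trans h1 ?_
  rw [cup_sym]
  congr 1
  funext i
  refine Fin.cases ?_ (fun j => ?_) i
  · rw [Fin.cons_zero, Fin.cons_zero]
    rfl
  · rw [Fin.cons_succ, Fin.cons_succ, map_mul]
    rfl

/-- The residue at the other points. -/
theorem entry_off (h1 : T_R1U.{u}) {X : Scheme.{u}} {w v' y : X} (hwy : w ⤳ y) (hv' : v' ⤳ y)
    (t : (kap X w)ˣ) (m : ℕ) (g : Fin m → (kap X w)ˣ) (U : (X.presheaf.stalk y)ˣ)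
    (V : Fin m → (X.presheaf.stalk y)ˣ) (Γ s : X.presheaf.stalk y)
    (hU : (U : X.presheaf.stalk y) = 1 + Γ * s)
    (hbad : (∃ i, v' ∈ bad w ((Fin.cons t g : Fin (m + 1) → (kap X w)ˣ) i)) → rho hv' Γ = 0) :
    entry w v' (m + 1) (cup t (sym (Fin.cons (ru hwy U)
      (fun i => g i * ru hwy (V i)) : Fin (m + 1) → (kap X w)ˣ))) = 0 := by
  rw [cup_sym]
  by_cases hb : ∃ i, v' ∈ bad w ((Fin.cons t g : Fin (m + 1) → (kap X w)ˣ) i)
  · by_cases hwv : w ⤳ v'
    · rw [show entry w v' (m + 1) = Pool.Agent.H62.KG.resX hwv (m + 1) from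
        Pool.Agent.H62.KG.entry_eq hwv (m + 1)]
      let _ : Algebra (X.presheaf.stalk v') (kap X w) := (Pool.Agent.H17.KW.rho hwv).toAlgebra
      refine h1 (X.presheaf.stalk v') (kap X w) (m + 1) _ 1
        (X.presheaf.stalkSpecializes hv' (Γ * s)) ?_ ?_
      · have h2 := hbad hb
        rw [rho_apply] at h2
        have h3 := (IsLocalRing.residue_eq_zero_iff _).1 h2
        rw [map_mul]
        exact Ideal.mul_mem_right _ _ h3
      · change rho hwy (U : X.presheaf.stalk y) = 1 + rho hwv _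
        rw [rho_comp, hU, map_add, map_one]
    · rw [Pool.Agent.H17.KW.entry_of_not X hwv]
      rfl
  · push Not at hb
    apply entry_sym_eq_zero
    intro i
    refine Fin.cases ?_ (fun j => ?_) i
    · rw [Fin.cons_zero]
      exact hb 0
    · rw [Fin.cons_succ]
      refine Fin.cases ?_ (fun k => ?_) j
      · rw [Fin.cons_zero]
        exact not_bad_of_unit hwy hv' U
      · rw [Fin.cons_succ]
        refine not_bad_mul ?_ (not_bad_of_unit hwy hv' (V k))
        exact hb k.succ

end Pool.Agent.H19.KSJ
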